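import Pool.Agent.V11319.FAD.Main

/-!
# Natural boundaries of zeta functions of FAD-systems

We prove that for every FAD-system `(X,f)` (hyperbolic or not, with arbitrary nonnegative real
exponents `s_{p,n}`, `t_{p,n}`) whose zeta function is not root-rational, `ζ_f` has a natural
boundary along the circle `|z| = 1/Λ`.

Idea.  `f_n / Λ^n` is `u_n w_n + o(1)` with `u_n` a trigonometric polynomial and `w_n > 0` limit
periodic. If `ζ_f` continues analytically at a point of the circle, then the Fourier-Bohr
coefficients (generalised Abel means) of `f_n / Λ^n` vanish at all frequencies of an arc. As
`n ↦ E n` with `E ≡ 1 mod N` does not change the relevant part of `u_n w_n`, all coefficients at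
the frequencies of large exact `p`-power level vanish; hence the average over a class `mod N p^b`
does not depend on `b`, which by positivity forces `s_{p,n} = t_{p,n} = 0` for all `n` that are
divisible by a large power of `p` and have `det (A^n - 1) ≠ 0`. Then
`f_n = |det (A^n - 1)| c^n R_{gcd(n,N)}`, `c^2` is rational, and the congruences `f_l ≡ f_1 mod l`
for the primes `l` show that `c^2` is a square modulo all large primes, so `c` is rational and
`ζ_f` is root-rational.
-/

set_option autoImplicit false

namespace Pool.Agent.Results.MP_dde008_nt.NaturalBoundary

open Pool.Agent.V11319.FAD

/-- **Theorem.** For every FAD-system `(X,f)` whose zeta function is not root-rational, the zeta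
function has a natural boundary along the circle `|z| = 1/Λ`. -/
theorem result {X : Type*} (f : X → X) (hF : IsFAD f) (hnr : ¬ RootRational f) :
    NaturalBoundary f :=
  main f hF hnr

end Pool.Agent.Results.MP_dde008_nt.NaturalBoundary
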